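import Mathlib
import Pool.Agent.E8helper19.LC.Stm

/-!
# Bounded solutions of `-Δw + μ² w = 0` vanish
-/

set_option autoImplicit false
open MeasureTheory Filter Topology Set Laplacian ContinuousLinearMap
open scoped ContDiff Real Convolution

namespace Pool.Agent.E8helper99.LC

open Pool.Agent.E8helper19.LC

lemma second_test {g g1 : ℝ → ℝ} {d : ℝ} (h1 : ∀ t, HasDerivAt g (g1 t) t)
    (h2 : HasDerivAt g1 d 0) (hmax : ∀ t, g t ≤ g 0) : d ≤ 0 := by
  by_contra hd
  push Not at hd
  have h0 : g1 0 = 0 := by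
    have : IsLocalMax g 0 := Filter.Eventually.of_forall hmax
    exact this.hasDerivAt_eq_zero (h1 0)
  have hs := h2.tendsto_slope
  have hev : ∀ᶠ t in 𝓝[≠] (0 : ℝ), 0 < slope g1 0 t := hs.eventually (lt_mem_nhds hd)
  rw [eventually_nhdsWithin_iff, Metric.eventually_nhds_iff] at hev
  obtain ⟨ε, hε, hb⟩ := hev
  have hε2 : (0 : ℝ) < ε / 2 := by positivity
  obtain ⟨c, hc, hceq⟩ := exists_hasDerivAt_eq_slope g g1 hε2
    (fun t _ => (h1 t).continuousAt.continuousWithinAt) (fun t _ => h1 t)
  have hcd : dist c 0 < ε := by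
    rw [Real.dist_eq, sub_zero, abs_of_pos hc.1]
    linarith [hc.2]
  have hc' := hb hcd (ne_of_gt hc.1)
  rw [slope_def_field, h0, sub_zero, sub_zero] at hc'
  have h3 : 0 < g1 c := by
    have := mul_pos hc' hc.1
    rwa [div_mul_cancel₀ _ (ne_of_gt hc.1)] at this
  rw [hceq, sub_zero] at h3
  have h4 := hmax (ε / 2)
  have h5 : (g (ε / 2) - g 0) / (ε / 2) ≤ 0 :=
    div_nonpos_of_nonpos_of_nonneg (by linarith) hε2.le
  linarith

/-- the basis vectors -/
noncomputable def e (i : Fin 2) : P := EuclideanSpace.single i (1 : ℝ)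

lemma norm_e (i : Fin 2) : ‖e i‖ = 1 := by simp [e]

/-- a maximum principle -/
lemma maxprin {μ : ℝ} (hμ : 0 < μ) (W : P → ℝ) (hc : Continuous W) {C : ℝ} (hb : ∀ x, W x ≤ C)
    (D1 D2 : Fin 2 → P → ℝ)
    (h1 : ∀ i x t, HasDerivAt (fun t : ℝ => W (x + t • e i)) (D1 i (x + t • e i)) t)
    (h2 : ∀ i x t, HasDerivAt (fun t : ℝ => D1 i (x + t • e i)) (D2 i (x + t • e i)) t)
    (hpde : ∀ x, D2 0 x + D2 1 x = μ ^ 2 * W x) : ∀ x, W x ≤ 0 := by
  have main : ∀ δ : ℝ, 0 < δ → ∀ x, W x ≤ δ * (‖x‖ ^ 2 + 4 / μ ^ 2) := by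
    intro δ hδ
    set h : P → ℝ := fun x => W x - δ * ‖x‖ ^ 2 with hh
    have hcont : Continuous h := by
      simp only [hh]
      fun_prop
    have hlim : Tendsto h (cocompact P) atBot := by
      have t1 : Tendsto (fun x : P => δ * ‖x‖ ^ 2) (cocompact P) atTop :=
        Tendsto.const_mul_atTop hδ
          ((tendsto_pow_atTop (by norm_num : (2 : ℕ) ≠ 0)).comp tendsto_norm_cocompact_atTop)
      have t2 : Tendsto (fun x : P => C - δ * ‖x‖ ^ 2) (cocompact P) atBot :=
        tendsto_atBot_add_const_left _ C (tendsto_neg_atTop_atBot.comp t1)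
      exact tendsto_atBot_mono (fun x => by simp only [hh]; linarith [hb x]) t2
    obtain ⟨z, hz⟩ := hcont.exists_forall_ge hlim
    have hd : ∀ i, D2 i z - 2 * δ ≤ 0 := by
      intro i
      have hn : ∀ t : ℝ, ‖z + t • e i‖ ^ 2 = ‖z‖ ^ 2 + 2 * (t * inner ℝ z (e i)) + t ^ 2 := by
        intro t
        rw [norm_add_sq_real, inner_smul_right, norm_smul, norm_e]
        simp
      refine second_test (g := fun t => h (z + t • e i))
        (g1 := fun t => D1 i (z + t • e i) - δ * (2 * inner ℝ z (e i) + 2 * t)) ?_ ?_ ?_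
      · intro t
        have : (fun t : ℝ => h (z + t • e i)) =
            fun t : ℝ => W (z + t • e i) - δ * (‖z‖ ^ 2 + 2 * (t * inner ℝ z (e i)) + t ^ 2) := by
          funext t
          simp only [hh, hn]
        rw [this]
        refine (h1 i z t).sub ?_
        have hq : HasDerivAt (fun t : ℝ => ‖z‖ ^ 2 + 2 * (t * inner ℝ z (e i)) + t ^ 2)
            (2 * inner ℝ z (e i) + 2 * t) t := by
          have a1 : HasDerivAt (fun t : ℝ => 2 * (t * inner ℝ z (e i))) (2 * inner ℝ z (e i)) t := by
            simpa using ((hasDerivAt_id t).mul_const (inner ℝ z (e i))).const_mul 2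
          have a2 : HasDerivAt (fun t : ℝ => t ^ 2) (2 * t) t := by
            simpa using hasDerivAt_pow 2 t
          have := (a1.const_add (‖z‖ ^ 2)).add a2
          exact this
        exact hq.const_mul δ
      · have b1 := h2 i z 0
        simp only [zero_smul, add_zero] at b1
        have b2 : HasDerivAt (fun t : ℝ => δ * (2 * inner ℝ z (e i) + 2 * t)) (2 * δ) 0 := by
          have := (((hasDerivAt_id (0 : ℝ)).const_mul 2).const_add (2 * inner ℝ z (e i))).const_mul δ
          simp only [id, mul_one] at this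
          rw [mul_comm 2 δ]
          exact this
        exact b1.sub b2
      · intro t
        have := hz (z + t • e i)
        simpa using this
    have hW : μ ^ 2 * W z ≤ 4 * δ := by
      rw [← hpde z]
      linarith [hd 0, hd 1]
    have hWz : W z ≤ 4 * δ / μ ^ 2 := by
      rw [le_div_iff₀ (by positivity)]
      linarith
    intro x
    have h3 := hz x
    simp only [hh] at h3
    have h4 : 0 ≤ δ * ‖z‖ ^ 2 := by positivity
    have h5 : δ * (‖x‖ ^ 2 + 4 / μ ^ 2) = δ * ‖x‖ ^ 2 + 4 * δ / μ ^ 2 := by ring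
    rw [h5]
    linarith
  intro x
  by_contra hx
  push Not at hx
  have hK : 0 < ‖x‖ ^ 2 + 4 / μ ^ 2 := by positivity
  have := main (W x / (2 * (‖x‖ ^ 2 + 4 / μ ^ 2))) (by positivity) x
  have h6 : W x / (2 * (‖x‖ ^ 2 + 4 / μ ^ 2)) * (‖x‖ ^ 2 + 4 / μ ^ 2) = W x / 2 := by
    field_simp
  linarith

lemma conv_deriv (a : P → ℝ) (ha : Continuous a) (ρ : P → ℝ) (hρ : ContDiff ℝ ∞ ρ)
    (hs : HasCompactSupport ρ) (v x : P) (t : ℝ) :
    HasDerivAt (fun t : ℝ => (a ⋆[mul ℝ ℝ, volume] ρ) (x + t • v))
      ((a ⋆[mul ℝ ℝ, volume] (fun y => fderiv ℝ ρ y v)) (x + t • v)) t := by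
  have h := hs.hasFDerivAt_convolution_right (mul ℝ ℝ) (μ := (volume : Measure P))
    ha.locallyIntegrable (hρ.of_le (by norm_cast)) (x + t • v)
  have hl : HasDerivAt (fun t : ℝ => x + t • v) v t := by
    simpa using ((hasDerivAt_id t).smul_const v).const_add x
  have h3 := h.comp_hasDerivAt t hl
  rw [convolution_precompR_apply (mul ℝ ℝ) ha.locallyIntegrable (hs.fderiv ℝ)
    (hρ.continuous_fderiv (by norm_num))] at h3
  exact h3

lemma lap_sub (ρ : P → ℝ) (hρ : ContDiff ℝ ∞ ρ) (x y : P) :
    Laplacian.laplacian (fun y => ρ (x - y)) y =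
      fderiv ℝ (fun z => fderiv ℝ ρ z (e 0)) (x - y) (e 0) +
      fderiv ℝ (fun z => fderiv ℝ ρ z (e 1)) (x - y) (e 1) := by
  have hsub : ∀ y : P, HasFDerivAt (fun y : P => x - y) (-ContinuousLinearMap.id ℝ P) y :=
    fun y => (hasFDerivAt_id y).const_sub x
  have hd1 : Differentiable ℝ ρ := hρ.differentiable (by norm_num)
  have hF : ContDiff ℝ ∞ (fderiv ℝ ρ) := hρ.fderiv_right (by norm_cast)
  have hd2 : Differentiable ℝ (fderiv ℝ ρ) := hF.differentiable (by norm_num)
  have h1 : fderiv ℝ (fun y : P => ρ (x - y)) = fun y => -(fderiv ℝ ρ (x - y)) := by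
    funext y
    have := ((hd1 (x - y)).hasFDerivAt.comp y (hsub y)).fderiv
    have h' : (ρ ∘ fun y : P => x - y) = fun y : P => ρ (x - y) := rfl
    rw [h'] at this
    rw [this]
    ext v
    simp
  have h2 : ∀ y, fderiv ℝ (fun y : P => -(fderiv ℝ ρ (x - y))) y =
      (fderiv ℝ (fderiv ℝ ρ) (x - y)) := by
    intro y
    have := ((hd2 (x - y)).hasFDerivAt.comp y (hsub y)).neg.fderiv
    have h' : (-(fderiv ℝ ρ ∘ fun y : P => x - y)) = fun y : P => -(fderiv ℝ ρ (x - y)) := rfl
    rw [h'] at this
    rw [this]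
    ext v w
    simp
  have h3 : ∀ (z v : P), fderiv ℝ (fun z => fderiv ℝ ρ z v) z v = fderiv ℝ (fderiv ℝ ρ) z v v := by
    intro z v
    have := ((hd2 z).hasFDerivAt.clm_apply (hasFDerivAt_const v z)).fderiv
    rw [this]
    simp
  rw [InnerProductSpace.laplacian_eq_iteratedFDeriv_orthonormalBasis _
    (EuclideanSpace.basisFun (Fin 2) ℝ)]
  simp only [Fin.sum_univ_two, iteratedFDeriv_two_apply, h1, h2, h3, EuclideanSpace.basisFun_apply,
    Matrix.cons_val_zero, Matrix.cons_val_one, e]

/-- the real version -/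
lemma real_case {μ : ℝ} (hμ : 0 < μ) (a : P → ℝ) (ha : Continuous a) {C : ℝ}
    (hb : ∀ x, |a x| ≤ C)
    (ht : ∀ φ : P → ℝ, ContDiff ℝ ∞ φ → HasCompactSupport φ →
      ∫ x, a x * (-(Laplacian.laplacian φ x) + μ ^ 2 * φ x) = 0) : ∀ x, a x ≤ 0 := by
  -- mollified function
  have key : ∀ ρ : P → ℝ, ContDiff ℝ ∞ ρ → HasCompactSupport ρ →
      (∀ x, 0 ≤ ρ x) → ∀ x, (a ⋆[mul ℝ ℝ, volume] ρ) x ≤ 0 := by
    intro ρ hρ hs hρ0
    have hDc : ∀ v : P, ContDiff ℝ ∞ (fun y => fderiv ℝ ρ y v) := fun v =>
      (hρ.fderiv_right (m := ∞) (by norm_cast)).clm_apply contDiff_const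
    have hDs : ∀ v : P, HasCompactSupport (fun y => fderiv ℝ ρ y v) := fun v =>
      hs.fderiv_apply ℝ v
    have hcont : Continuous (a ⋆[mul ℝ ℝ, volume] ρ) :=
      hs.continuous_convolution_right (mul ℝ ℝ) ha.locallyIntegrable hρ.continuous
    refine maxprin hμ (a ⋆[mul ℝ ℝ, volume] ρ) hcont (C := C * ∫ x, ρ x) ?_
      (fun i => a ⋆[mul ℝ ℝ, volume] (fun y => fderiv ℝ ρ y (e i)))
      (fun i => a ⋆[mul ℝ ℝ, volume]
        (fun y => fderiv ℝ (fun z => fderiv ℝ ρ z (e i)) y (e i))) ?_ ?_ ?_
    · intro x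
      rw [convolution_def]
      have hint : Integrable ρ := hρ.continuous.integrable_of_hasCompactSupport hs
      have hint2 : Integrable (fun t => ρ (x - t)) := hint.comp_sub_left x
      have e1 : C * ∫ x, ρ x = ∫ t, C * ρ (x - t) := by
        rw [integral_const_mul, integral_sub_left_eq_self (fun t => ρ t) volume x]
      rw [e1]
      apply integral_mono
      · have hsx : HasCompactSupport (fun t => ρ (x - t)) :=
          hs.comp_homeomorph (Homeomorph.subLeft x)
        have hcx : Continuous (fun t => ρ (x - t)) := hρ.continuous.comp (by fun_prop)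
        exact (ha.mul hcx).integrable_of_hasCompactSupport hsx.mul_left
      · exact hint2.const_mul C
      · intro t
        simp only [mul_apply']
        exact mul_le_mul_of_nonneg_right ((le_abs_self _).trans (hb t)) (hρ0 _)
    · intro i x t
      exact conv_deriv a ha ρ hρ hs (e i) x t
    · intro i x t
      exact conv_deriv a ha _ (hDc (e i)) (hDs (e i)) (e i) x t
    · intro x
      have hφ : ContDiff ℝ ∞ (fun y : P => ρ (x - y)) := hρ.comp (by fun_prop)
      have hsφ : HasCompactSupport (fun y : P => ρ (x - y)) :=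
        hs.comp_homeomorph (Homeomorph.subLeft x)
      have h0 := ht _ hφ hsφ
      have hii : ∀ i : Fin 2, Integrable (fun t => a t *
          fderiv ℝ (fun z => fderiv ℝ ρ z (e i)) (x - t) (e i)) := by
        intro i
        have hs2 : HasCompactSupport
            (fun y => fderiv ℝ (fun z => fderiv ℝ ρ z (e i)) y (e i)) := (hDs (e i)).fderiv_apply ℝ (e i)
        have hc2 : Continuous (fun y => fderiv ℝ (fun z => fderiv ℝ ρ z (e i)) y (e i)) :=
          (((hDc (e i)).fderiv_right (m := ∞) (by norm_cast)).clm_apply contDiff_const).continuous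
        have hs3 : HasCompactSupport
            (fun t => fderiv ℝ (fun z => fderiv ℝ ρ z (e i)) (x - t) (e i)) :=
          hs2.comp_homeomorph (Homeomorph.subLeft x)
        have hc3 : Continuous (fun t => fderiv ℝ (fun z => fderiv ℝ ρ z (e i)) (x - t) (e i)) :=
          hc2.comp (by fun_prop)
        exact (ha.mul hc3).integrable_of_hasCompactSupport hs3.mul_left
      have hi0 : Integrable (fun t => a t * ρ (x - t)) := by
        have hcx : Continuous (fun t => ρ (x - t)) := hρ.continuous.comp (by fun_prop)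
        exact (ha.mul hcx).integrable_of_hasCompactSupport hsφ.mul_left
      simp only [convolution_def, mul_apply']
      rw [← integral_add (hii 0) (hii 1), ← integral_const_mul]
      have e2 : (fun t => a t * (-(Laplacian.laplacian (fun y => ρ (x - y)) t)
          + μ ^ 2 * ρ (x - t))) = fun t => (μ ^ 2 * (a t * ρ (x - t))) -
          (a t * fderiv ℝ (fun z => fderiv ℝ ρ z (e 0)) (x - t) (e 0) +
            a t * fderiv ℝ (fun z => fderiv ℝ ρ z (e 1)) (x - t) (e 1)) := by
        funext t
        rw [lap_sub ρ hρ]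
        ring
      have hadd : Integrable (fun t => a t * fderiv ℝ (fun z => fderiv ℝ ρ z (e 0)) (x - t) (e 0) +
            a t * fderiv ℝ (fun z => fderiv ℝ ρ z (e 1)) (x - t) (e 1)) := (hii 0).add (hii 1)
      rw [e2, integral_sub (hi0.const_mul _) hadd] at h0
      linarith
  intro x
  refine le_of_forall_pos_le_add fun ε hε => ?_
  obtain ⟨δ, hδ, hball⟩ := Metric.continuous_iff.1 ha x ε hε
  let φ : ContDiffBump (0 : P) := ⟨δ / 4, δ / 2, by positivity, by linarith⟩
  have hd := φ.dist_normed_convolution_le (μ := (volume : Measure P)) (x₀ := x) (g := a) (ε := ε)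
    ha.aestronglyMeasurable (fun y hy => by
      have hy' : dist y x < δ / 2 := hy
      exact (hball y (by linarith)).le)
  have hk := key (φ.normed volume) φ.contDiff_normed φ.hasCompactSupport_normed
    (fun x => φ.nonneg_normed x) x
  have he : (φ.normed volume ⋆[lsmul ℝ ℝ, volume] a) x = (a ⋆[mul ℝ ℝ, volume] (φ.normed volume)) x := by
    rw [convolution_lsmul_swap, convolution_def]
    refine integral_congr_ae (Eventually.of_forall fun t => ?_)
    simp only [smul_eq_mul, mul_apply']
    ring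
  rw [he, Real.dist_eq, abs_le] at hd
  linarith [hd.1]

theorem t_UNI : S_UNI := by
  intro μ w hμ hw hbd ht
  obtain ⟨C, hC⟩ := hbd
  -- reduction to the real case
  have red : ∀ l : ℂ →L[ℝ] ℝ, ∀ x, l (w x) ≤ 0 := by
    intro l
    refine real_case hμ (fun x => l (w x)) (l.continuous.comp hw) (C := ‖l‖ * C) ?_ ?_
    · intro x
      have h1 := l.le_opNorm (w x)
      rw [Real.norm_eq_abs] at h1
      exact h1.trans (mul_le_mul_of_nonneg_left (hC x) (norm_nonneg _))
    · intro φ hφ hs
      have h0 := ht (fun x => (φ x : ℂ)) (Complex.ofRealCLM.contDiff.comp hφ)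
        (hs.comp_left (g := fun r : ℝ => (r : ℂ)) (by simp))
      have hlap : ∀ x, Laplacian.laplacian (fun x => (φ x : ℂ)) x
          = ((Laplacian.laplacian φ x : ℝ) : ℂ) := by
        intro x
        have := (hφ.contDiffAt (x := x)).of_le (m := 2) (by norm_cast)
        exact this.laplacian_CLM_comp_left (l := Complex.ofRealCLM)
      have e1 : (fun x => w x * (-(Laplacian.laplacian (fun x => (φ x : ℂ)) x)
          + ((μ ^ 2 : ℝ) : ℂ) * (φ x : ℂ))) =
          fun x => (-(Laplacian.laplacian φ x) + μ ^ 2 * φ x : ℝ) • w x := by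
        funext x
        rw [hlap, Complex.real_smul]
        push_cast
        ring
      rw [e1] at h0
      have hc : Continuous (Laplacian.laplacian φ) := by
        rw [InnerProductSpace.laplacian_eq_iteratedFDeriv_orthonormalBasis _
          (EuclideanSpace.basisFun (Fin 2) ℝ)]
        refine continuous_finsetSum _ fun i _ => ?_
        have := hφ.continuous_iteratedFDeriv (m := 2) (by norm_cast)
        fun_prop
      have hsl : HasCompactSupport (fun x => -(Laplacian.laplacian φ x) + μ ^ 2 * φ x) := by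
        refine HasCompactSupport.intro hs.isCompact fun x hx => ?_
        have h1 : φ =ᶠ[𝓝 x] fun _ => 0 := by
          rw [notMem_tsupport_iff_eventuallyEq] at hx
          exact hx
        have h2 := InnerProductSpace.laplacian_congr_nhds h1
        rw [h2.self_of_nhds, h1.self_of_nhds]
        have h3 := congrFun (InnerProductSpace.laplacian_const (E := P) (c := (0 : ℝ))) x
        simp only [Pi.zero_apply] at h3
        rw [h3]
        simp
      have hint : Integrable (fun x => (-(Laplacian.laplacian φ x) + μ ^ 2 * φ x : ℝ) • w x) := by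
        have hcc : Continuous (fun x => (-(Laplacian.laplacian φ x) + μ ^ 2 * φ x : ℝ) • w x) :=
          (hc.neg.add (continuous_const.mul hφ.continuous)).smul hw
        exact hcc.integrable_of_hasCompactSupport hsl.smul_right
      have h4 := l.integral_comp_comm hint
      rw [h0, map_zero] at h4
      rw [← h4]
      refine integral_congr_ae (Eventually.of_forall fun x => ?_)
      simp only [map_smul, smul_eq_mul]
      ring
  intro x
  have r1 := red Complex.reCLM x
  have r2 := red (-Complex.reCLM) x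
  have i1 := red Complex.imCLM x
  have i2 := red (-Complex.imCLM) x
  simp only [_root_.neg_apply, Complex.reCLM_apply, Complex.imCLM_apply] at r1 r2 i1 i2
  apply Complex.ext
  · simp only [Complex.zero_re]; linarith
  · simp only [Complex.zero_im]; linarith

end Pool.Agent.E8helper99.LC
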